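import Pool.Agent.H99.DR.Fin

set_option autoImplicit false

/-!
# Anti-concentration of the diameters of the macroscopic clusters

Critical bond percolation in `Λ_n = {0, …, n}²`.  Definitions (file `Pool.Agent.H99.DR.Defs`):
`prob n A` is the probability of the event `A` (the set `F` of open edges is uniform on the subsets
of `edges n`), `body F v` is the cluster of `v` as a closed subset of the plane (vertices and closed
edge segments), `diam F v` is its Euclidean diameter, and `Largest n F v` says that the diameter of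
the cluster of `v ∈ Λ_n` is the largest one.
-/

namespace Pool.Agent.Results.MP_6bd702_pr.DiameterAntiConcentration

open Pool.Agent.H99.DR

/-- There are constants `c, C > 0` such that for all `n ≥ 1`, `1/n ≤ δ ≤ 1` and every real `a`:

(1) for `0 < ε ≤ 1`, the probability that some cluster of `Λ_n` has a diameter at least `ε n` and in
`[a - δ n, a + δ n]` is at most `C δ ^ c / ε ^ 3`;

(2) the largest diameter lies in `[a - δ n, a + δ n]` with probability at most `C δ ^ c`. -/
theorem result : ∃ c C : ℝ, 0 < c ∧ 0 < C ∧ ∀ n : ℕ, 1 ≤ n → ∀ δ a : ℝ, 1 / (n : ℝ) ≤ δ → δ ≤ 1 →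
    (∀ ε : ℝ, 0 < ε → ε ≤ 1 →
      prob n (fun F => ∃ v ∈ box n, ε * n ≤ diam F v ∧ |diam F v - a| ≤ δ * n) ≤
        C * δ ^ c / ε ^ 3) ∧
    prob n (fun F => ∃ v, Largest n F v ∧ |diam F v - a| ≤ δ * n) ≤ C * δ ^ c := by
  have hc := H99L.cz_pos
  have hC := H99L.CCst_ge
  refine ⟨H99L.cz / 192, H99L.CCst + 8, by positivity, by linarith, fun n hn δ a hδ hδ1 => ?_⟩
  have hn0 : (0 : ℝ) < n := by exact_mod_cast hn
  refine ⟨fun ε hε hε1 => (anti hn hε hε1 hδ a).trans ?_, anti_max hn hδ hδ1 a⟩
  have hδ0 : 0 < δ := lt_of_lt_of_le (by positivity) hδ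
  have h1 : δ ^ (H99L.cz / 48) ≤ δ ^ (H99L.cz / 192) :=
    Real.rpow_le_rpow_of_exponent_ge hδ0 hδ1 (by linarith)
  have h2 : 0 ≤ δ ^ (H99L.cz / 48) := Real.rpow_nonneg hδ0.le _
  apply div_le_div_of_nonneg_right _ (by positivity)
  nlinarith

end Pool.Agent.Results.MP_6bd702_pr.DiameterAntiConcentration
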