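import Pool.Agent.H99.DR.Fin

set_option autoImplicit false

/-!
# Repulsion of the diameters and asymptotic uniqueness of the largest cluster

Critical bond percolation in `Λ_n = {0, …, n}²`.  Definitions (file `Pool.Agent.H99.DR.Defs`):
`prob n A` is the probability of the event `A` (the set `F` of open edges is uniform on the subsets
of `edges n`), `cluster F v` is the set of vertices of the cluster of `v`, `body F v` is the same
cluster as a closed subset of the plane (vertices and closed edge segments), `diam F v` is its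
Euclidean diameter, and `Largest n F v` says that the diameter of the cluster of `v ∈ Λ_n` is the
largest one.
-/

namespace Pool.Agent.Results.MP_6bd702_pr.DiameterRepulsion

open Pool.Agent.H99.DR

/-- There are constants `c, C > 0` such that for all `n ≥ 1`:

(1) the diameters of the macroscopic clusters repel each other: for `0 < ε ≤ 1` and `1/n ≤ δ ≤ 1`,
the probability that two different clusters of `Λ_n` have diameters at least `ε n` which differ by
at most `δ n` is at most `C δ ^ c / ε ^ 3`;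

(2) the probability that two different clusters have diameters within `δ n` of the largest one is
at most `C δ ^ c`;

(3) the largest cluster is unique up to a probability `C n ^ (-c)`;

(4) the laws of the largest clusters (as closed subsets of the plane) chosen by two different rules
are at total variation distance at most `C n ^ (-c)`;

(5) the law of the largest cluster, for any rule, is invariant under the symmetries of `Λ_n`, up to
a total variation distance `C n ^ (-c)`. -/
theorem result : ∃ c C : ℝ, 0 < c ∧ 0 < C ∧ ∀ n : ℕ, 1 ≤ n →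
    (∀ ε δ : ℝ, 0 < ε → ε ≤ 1 → 1 / (n : ℝ) ≤ δ → δ ≤ 1 →
      prob n (fun F => ∃ v ∈ box n, ∃ w ∈ box n, w ∉ cluster F v ∧ ε * n ≤ diam F v ∧
        ε * n ≤ diam F w ∧ |diam F v - diam F w| ≤ δ * n) ≤ C * δ ^ c / ε ^ 3) ∧
    (∀ δ : ℝ, 1 / (n : ℝ) ≤ δ → δ ≤ 1 →
      prob n (fun F => ∃ v ∈ box n, ∃ w ∈ box n, w ∉ cluster F v ∧
        ∀ u ∈ box n, diam F u ≤ diam F v + δ * n ∧ diam F u ≤ diam F w + δ * n) ≤ C * δ ^ c) ∧
    prob n (fun F => ∃ v w, Largest n F v ∧ Largest n F w ∧ w ∉ cluster F v) ≤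
      C * (n : ℝ) ^ (-c) ∧
    (∀ sel sel' : Finset Edge → ℤ × ℤ, (∀ F, F ⊆ edges n → Largest n F (sel F)) →
      (∀ F, F ⊆ edges n → Largest n F (sel' F)) → ∀ A : Set (Set ℂ),
      |prob n (fun F => body F (sel F) ∈ A) - prob n (fun F => body F (sel' F) ∈ A)| ≤
        C * (n : ℝ) ^ (-c)) ∧
    (∀ φ : ℂ ≃ᵢ ℂ, φ '' (pt '' ↑(box n)) = pt '' ↑(box n) →
      ∀ sel : Finset Edge → ℤ × ℤ, (∀ F, F ⊆ edges n → Largest n F (sel F)) →
      ∀ A : Set (Set ℂ),
      |prob n (fun F => body F (sel F) ∈ A) - prob n (fun F => φ '' body F (sel F) ∈ A)| ≤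
        C * (n : ℝ) ^ (-c)) := by
  have hc := H99L.cz_pos
  have hC := H99L.CCst_ge
  refine ⟨H99L.cz / 192, H99L.CCst + 8, by positivity, by linarith, fun n hn => ?_⟩
  have hn0 : (0 : ℝ) < n := by exact_mod_cast hn
  have weak : ∀ ε δ : ℝ, 0 < ε → 1 / (n : ℝ) ≤ δ → δ ≤ 1 →
      H99L.CCst * δ ^ (H99L.cz / 48) / ε ^ 3 ≤ (H99L.CCst + 8) * δ ^ (H99L.cz / 192) / ε ^ 3 := by
    intro ε δ hε hδ hδ1
    have hδ0 : 0 < δ := lt_of_lt_of_le (by positivity) hδ
    have h1 : δ ^ (H99L.cz / 48) ≤ δ ^ (H99L.cz / 192) :=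
      Real.rpow_le_rpow_of_exponent_ge hδ0 hδ1 (by linarith)
    have h2 : 0 ≤ δ ^ (H99L.cz / 48) := Real.rpow_nonneg hδ0.le _
    apply div_le_div_of_nonneg_right _ (by positivity)
    nlinarith
  exact ⟨fun ε δ hε hε1 hδ hδ1 => (rep hn hε hε1 hδ).trans (weak ε δ hε hδ hδ1),
    fun δ hδ hδ1 => near_max hn hδ hδ1, uniq hn,
    fun sel sel' h h' A => rules hn h h' A, fun φ hφ sel hs A => symm_law hn hφ hs A⟩

end Pool.Agent.Results.MP_6bd702_pr.DiameterRepulsion
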