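import Pool.Agent.H99.SL.Low
import Pool.Agent.H99.SL.Low2
import Pool.Agent.H99.SL.NET
import Pool.Agent.H99.SL.NEP
import Pool.Agent.H99.SL.BLP
import Pool.Agent.H99.SL.BOTH
import Pool.Agent.H99.SL.HOLE
import Pool.Agent.H99.SL.COND
import Pool.Agent.H99.SL.GEO
import Pool.Agent.H99.SL.SUP
import Pool.Agent.H99.SL.MUL
import Pool.Agent.H99.SL.CNTA
import Pool.Agent.H99.SL.CNTN
import Pool.Agent.H99.SL.EXZ
import Pool.Agent.H99.SL.WID
import Pool.Agent.H99.SL.GD2
import Pool.Agent.H99.SL.UPA
import Pool.Agent.H99.SL.UPB
import Pool.Agent.H99.SL.UP2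
import Pool.Agent.H99.SL.PORT
import Pool.Agent.H99.SL.Lim2
import Pool.Agent.H99.SL.AS

set_option autoImplicit false

/-!
# The probability of every shape of the largest cluster

Critical bond percolation in `Λ_n = {0, …, n}²`.  Definitions (files `Pool.Agent.H99.DR.Defs`,
`Pool.Agent.H99.MS.Defs`, `Pool.Agent.H99.SL.Stm`, `Pool.Agent.H99.SL.Stm3` and
`Pool.Agent.H99.SL.AS`):

* `prob n A` and `mean n f` are the probability of the event `A` and the expectation of `f` (the set
  `F` of open edges is uniform on the subsets of `edges n`);
* `Largest n F v` says that `v ∈ Λ_n` and that the Euclidean diameter of its cluster is the largest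
  one; `shape n F v` is the cluster of `v` (vertices and closed edge segments) divided by `n`, as an
  element of the space of nonempty compact subsets of the plane with the Hausdorff distance `dist`;
* `Cont K` says that `K` is a continuum (connected compact set) in the closed unit square;
* `cov K ε` is the least number of closed discs of radius `ε` which cover `K`, and
  `cost K ε = cov K ε + 1 / (max (diam K) ε) ^ 2`;
* `ConvergesTo sel k μ`: for every bounded continuous real function `g` on the space of compact sets
  the expectation of `g (C_n / n)` converges to `∫ g dμ` along `n = k i`, where `C_n` is the largest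
  cluster chosen by the rule `sel`;
* `coins` is the law of independent fair coins on all edges of the square lattice, and `openIn n ω`
  is the set of the edges of `Λ_n` whose coin shows `true` (so `openIn n ω` is critical percolation
  in `Λ_n`, for all `n` in one probability space).
-/

namespace Pool.Agent.Results.MP_6bd702_pr.EveryContinuum

open Pool.Agent.H99.DR Pool.Agent.H99.MS Pool.Agent.H99.SL Filter Topology MeasureTheory
open TopologicalSpace (NonemptyCompacts)

/-- There are constants `c, C > 0` such that for ALL continua `K` in the unit square and all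
`ε ∈ (0, 1]`:

(1) for all `n ≥ C / ε`, with probability at least `exp (- C cost K ε)` every largest cluster of
`Λ_n`, divided by `n`, is within Hausdorff distance `ε` of `K`, and with probability at most
`C exp (- c cost K ε)` some largest cluster is;

(2) for every rule which chooses a largest cluster `C_n` of `Λ_n` and every limit in law `μ` of
`C_n / n` along a sequence of sizes, the same bounds hold for the `μ`-measure of the closed,
respectively open, ball of radius `ε` around `K`.

Consequently the topological support of every such `μ` is exactly the set of all continua in the unit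
square, and, with one configuration of fair coins on all edges of the lattice, almost surely the set
of limit points of the sequence `C_n / n` is exactly the set of all continua in the unit square. -/
theorem result :
    (∃ c C : ℝ, 0 < c ∧ 0 < C ∧ ∀ K : NonemptyCompacts ℂ, Cont K → ∀ ε : ℝ, 0 < ε → ε ≤ 1 →
      (∀ n : ℕ, C ≤ ε * n →
        Real.exp (-(C * cost K ε)) ≤
          prob n (fun F => ∀ v, Largest n F v → dist (shape n F v) K ≤ ε) ∧
        prob n (fun F => ∃ v, Largest n F v ∧ dist (shape n F v) K ≤ ε) ≤
          C * Real.exp (-(c * cost K ε))) ∧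
      (∀ sel : ℕ → Finset Edge → ℤ × ℤ,
        (∀ n, 1 ≤ n → ∀ F, F ⊆ edges n → Largest n F (sel n F)) →
        ∀ [MeasurableSpace (NonemptyCompacts ℂ)] [BorelSpace (NonemptyCompacts ℂ)]
          (μ : Measure (NonemptyCompacts ℂ)) [IsProbabilityMeasure μ] (k : ℕ → ℕ),
          Tendsto k atTop atTop → ConvergesTo sel k μ →
          ENNReal.ofReal (Real.exp (-(C * cost K ε))) ≤ μ (Metric.closedBall K ε) ∧
          μ (Metric.ball K ε) ≤ ENNReal.ofReal (C * Real.exp (-(c * cost K ε))))) ∧
    (∀ sel : ℕ → Finset Edge → ℤ × ℤ,
      (∀ n, 1 ≤ n → ∀ F, F ⊆ edges n → Largest n F (sel n F)) →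
      (∀ [MeasurableSpace (NonemptyCompacts ℂ)] [BorelSpace (NonemptyCompacts ℂ)]
        (μ : Measure (NonemptyCompacts ℂ)) [IsProbabilityMeasure μ] (k : ℕ → ℕ),
        Tendsto k atTop atTop → ConvergesTo sel k μ →
        ∀ K : NonemptyCompacts ℂ, (∀ r : ℝ, 0 < r → 0 < μ (Metric.ball K r)) ↔ Cont K) ∧
      ∀ᵐ ω ∂coins, ∀ K : NonemptyCompacts ℂ,
        MapClusterPt K atTop (fun n => shape n (openIn n ω) (sel n (openIn n ω))) ↔ Cont K) := by
  have hlow : S_LOW := low net nep blp both hole cond geo
  have hlow2 : S_LOW2 := low2 net nep blp both hole cond geo cnta cntn exz wid gd2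
  have hcl : IsClosed {K : NonemptyCompacts ℂ | Cont K} := by
    rw [← isOpen_compl_iff, Metric.isOpen_iff]
    intro K hK
    obtain ⟨δ, hδ, h⟩ := SUPaux.not_cont hK
    exact ⟨δ, hδ, fun x hx => h x (Metric.mem_ball.mp hx)⟩
  have hsh : ∀ n : ℕ, 1 ≤ n → ∀ F, F ⊆ edges n → ∀ v ∈ box n, Cont (shape n F v) := by
    intro n hn F hF v hv
    exact SUPaux.shape_cont hn (by rw [← edges_eq]; exact hF) hv
  exact ⟨two_sided hlow2 (up2 upa upb) port, fun sel hsel =>
    ⟨sup hlow sel hsel, as_limit_points (mul hlow) hcl hsh hsel⟩⟩

end Pool.Agent.Results.MP_6bd702_pr.EveryContinuum
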