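import Pool.Agent.H99.MS.Conv

set_option autoImplicit false

/-!
# Stability of the largest cluster under a small change of the box

Critical bond percolation in `Λ_n = {0, …, n}²`.  Definitions (files `Pool.Agent.H99.DR.Defs` and
`Pool.Agent.H99.MS.Defs`): `prob n A` and `mean n f` are the probability of the event `A` and the
expectation of `f` (the set `F` of open edges is uniform on the subsets of `edges n`), `body F v` is
the cluster of `v` as a closed subset of the plane (vertices and closed edge segments),
`Largest n F v` says that `v ∈ Λ_n` and that the Euclidean diameter of its cluster is the largest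
one, and `shape n F v` is the cluster of `v` divided by `n`, as an element of the space of nonempty
compact subsets of the plane with the Hausdorff distance.

For `n ≤ m` and a configuration `F` in `Λ_m`, the configuration `F ∩ edges n` is critical
percolation in `Λ_n ⊆ Λ_m`.
-/

namespace Pool.Agent.Results.MP_6bd702_pr.MeshStability

open Pool.Agent.H99.DR Pool.Agent.H99.MS Filter Topology

/-- (1) There are constants `c, C > 0` such that for all `1 ≤ n ≤ m`, with `δ = (m - n + 1) / n`,
except on an event of probability at most `C δ ^ c`, every largest cluster of `Λ_n` is contained in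
every largest cluster of `Λ_m`, and the latter is contained in the closed `C δ ^ c n`-neighbourhood
of the former.

(2) For every rule which chooses a largest cluster `C_n` of `Λ_n`, every continuous function `g` on
the space of nonempty compact subsets of the plane and every sequence of sizes `k_i → ∞` with
`k_{i+1} / k_i → 1`: if the expectations of `g (C_n / n)` converge along `n = k_i`, then they
converge along all `n`. (So if the laws of `C_n / n` converge along the sizes `k_i`, then they
converge along all sizes.) -/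
theorem result :
    (∃ c C : ℝ, 0 < c ∧ 0 < C ∧ ∀ n m : ℕ, 1 ≤ n → n ≤ m →
      ∀ δ : ℝ, δ = ((m : ℝ) - n + 1) / n →
      prob m (fun F => ∃ u v, Largest n (F ∩ edges n) u ∧ Largest m F v ∧
        ¬ (body (F ∩ edges n) u ⊆ body F v ∧
          ∀ p ∈ body F v, ∃ q ∈ body (F ∩ edges n) u, dist p q ≤ C * δ ^ c * n)) ≤ C * δ ^ c) ∧
    (∀ sel : ℕ → Finset Edge → ℤ × ℤ,
      (∀ n, 1 ≤ n → ∀ F, F ⊆ edges n → Largest n F (sel n F)) →
      ∀ g : TopologicalSpace.NonemptyCompacts ℂ → ℝ, Continuous g →
      ∀ k : ℕ → ℕ, Tendsto k atTop atTop →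
        Tendsto (fun i => (k (i + 1) : ℝ) / k i) atTop (𝓝 1) →
      ∀ L : ℝ, Tendsto (fun i => mean (k i) (fun F => g (shape (k i) F (sel (k i) F)))) atTop
          (𝓝 L) →
        Tendsto (fun n => mean n (fun F => g (shape n F (sel n F)))) atTop (𝓝 L)) := by
  refine ⟨?_, ?_⟩
  · have hc := H99L.cz_pos
    have hC := C0_ge
    refine ⟨H99L.cz / 3072, C0, by positivity, by linarith, ?_⟩
    intro n m hn hnm δ hδ
    have hn0 : (0 : ℝ) < n := by exact_mod_cast hn
    have hnm' : (0 : ℝ) ≤ (m : ℝ) - n := by
      have : (n : ℝ) ≤ m := by exact_mod_cast hnm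
      linarith
    have hδ0 : 0 < δ := by rw [hδ]; positivity
    have hδn : 1 ≤ δ * n := by
      rw [hδ]
      field_simp
      linarith
    have hpos : 0 < δ ^ (H99L.cz / 3072) := Real.rpow_pos_of_pos hδ0 _
    by_cases hδ1 : δ ≤ 1
    · refine le_trans ?_ (bad_prob hn hnm hδ)
      rw [prob_eq, edges_eq]
      apply H99L.Pr_mono H99L.okh
      rintro F hF ⟨u, v, hu, hv, hbad⟩
      refine ⟨u, v, hu, hv, fun ⟨h1, h2⟩ => hbad ⟨body_sub Finset.inter_subset_left h1, ?_⟩⟩
      intro p hp
      obtain ⟨z, hz, hpz⟩ := body_near hp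
      obtain ⟨x, hx, hxz⟩ := h2 z hz
      refine ⟨pt x, Or.inl ⟨x, hx, rfl⟩, ?_⟩
      have e1 : δ ≤ δ ^ (H99L.cz / 3072) := by
        calc δ = δ ^ (1 : ℝ) := (Real.rpow_one _).symm
          _ ≤ δ ^ (H99L.cz / 3072) :=
            Real.rpow_le_rpow_of_exponent_ge hδ0 hδ1 (by linarith [H99L.cz_le])
      have e2 : δ ^ (1/16 : ℝ) ≤ δ ^ (H99L.cz / 3072) :=
        Real.rpow_le_rpow_of_exponent_ge hδ0 hδ1 (by linarith [H99L.cz_le])
      calc dist p (pt x) ≤ dist p (pt z) + dist (pt z) (pt x) := dist_triangle _ _ _
        _ ≤ 1 + 600 * δ ^ (1/16 : ℝ) * n := by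
            rw [dist_pt, H99L.ed_comm]
            linarith
        _ ≤ δ ^ (H99L.cz / 3072) * n + 600 * δ ^ (H99L.cz / 3072) * n := by
            have h3 : δ * n ≤ δ ^ (H99L.cz / 3072) * n := mul_le_mul_of_nonneg_right e1 hn0.le
            have h4 : 600 * δ ^ (1/16 : ℝ) * n ≤ 600 * δ ^ (H99L.cz / 3072) * n := by gcongr
            linarith
        _ ≤ C0 * δ ^ (H99L.cz / 3072) * n := by
            have h5 : 0 ≤ δ ^ (H99L.cz / 3072) * n := by positivity
            nlinarith
    · push Not at hδ1
      rw [prob_eq]
      refine (H99L.Pr_le_one H99L.okh _ _).trans ?_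
      have h1 : 1 ≤ δ ^ (H99L.cz / 3072) := Real.one_le_rpow hδ1.le (by positivity)
      nlinarith
  · intro sel hsel g hg k hk hk1 L hL
    exact conv_of_slow (M := fun n => mean n (fun F => g (shape n F (sel n F))))
      (fun ε hε => slow hsel hg hε) hk hk1 hL

end Pool.Agent.Results.MP_6bd702_pr.MeshStability
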